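import Pool.Agent.W188.GP.Stm
import Pool.Agent.H382R2.Rect
import Pool.Agent.H388LH.ZG
import Pool.Agent.W22.QS.Basic
import Pool.Agent.W338.QS.Line
import Pool.Agent.W563.QS.Good

/-!
Project GP, part RESA (helper63): the residue theorem for `ζ(s) e^{(s-s₀)²} / ((1-w)(s-s₀))`, one line.
-/

set_option autoImplicit false

open Complex MeasureTheory Set Filter Topology

namespace Pool.Agent.W63.GP

open Pool.Agent.W188.QS

theorem norm_zeta_two {s : ℂ} (hs : 2 ≤ s.re) : ‖riemannZeta s‖ ≤ 2 := by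
  rw [zeta_eq_tsum_one_div_nat_add_one_cpow (by linarith)]
  have hterm : ∀ n : ℕ, ‖1 / ((n : ℂ) + 1) ^ s‖ ≤ 1 / ((n : ℝ) + 1) ^ 2 := by
    intro n
    have h1 : ((n : ℂ) + 1) = (((n : ℝ) + 1 : ℝ) : ℂ) := by push_cast; ring
    rw [norm_div, norm_one, h1, Complex.norm_cpow_eq_rpow_re_of_pos (by positivity)]
    apply one_div_le_one_div_of_le (by positivity)
    rw [← Real.rpow_natCast]
    apply Real.rpow_le_rpow_of_exponent_le _ (by exact_mod_cast hs)
    have : (0 : ℝ) ≤ n := Nat.cast_nonneg n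
    linarith
  have hs2 : Summable (fun n : ℕ => 1 / ((n : ℝ) + 1) ^ 2) := by
    have h := (summable_nat_add_iff 1).2 hasSum_zeta_two.summable
    refine h.congr (fun n => ?_)
    push_cast
    ring
  have hz : ∑' n : ℕ, 1 / ((n : ℝ) + 1) ^ 2 = Real.pi ^ 2 / 6 := by
    have h1 := hasSum_zeta_two
    have h2 := h1.summable.tsum_eq_zero_add
    rw [h1.tsum_eq] at h2
    simp only [Nat.cast_zero, ne_eq, OfNat.ofNat_ne_zero, not_false_eq_true, zero_pow, div_zero,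
      zero_add, Nat.cast_add, Nat.cast_one] at h2
    exact h2.symm
  refine (tsum_of_norm_bounded hs2.hasSum hterm).trans ?_
  rw [hz]
  have hpi := Real.pi_lt_d2
  have hpi0 := Real.pi_pos
  nlinarith

theorem cp_re (t : ℝ) : (cp t).re = 1 / 2 := by
  unfold cp; simp

theorem cp_im (t : ℝ) : (cp t).im = t := by
  unfold cp; simp

theorem cp_inj : Function.Injective cp := by
  intro s t h
  have := congrArg Complex.im h
  rwa [cp_im, cp_im] at this

theorem cp_sub (t t₀ : ℝ) : cp t - cp t₀ = ((t - t₀ : ℝ) : ℂ) * I := by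
  unfold cp
  push_cast
  ring

/-- the integrand -/
noncomputable def Fu (c : ℂ) (t₀ : ℝ) (s : ℂ) : ℂ :=
  (riemannZeta s * cexp ((s - cp t₀) ^ 2)) / ((1 - ww c 1 s) * (s - cp t₀))

theorem exp_norm (t₀ x y : ℝ) :
    ‖cexp (((⟨x, y⟩ : ℂ) - cp t₀) ^ 2)‖ = Real.exp ((x - 1 / 2) ^ 2 - (y - t₀) ^ 2) := by
  rw [Complex.norm_exp]
  congr 1
  have h1 : ((⟨x, y⟩ : ℂ) - cp t₀).re = x - 1 / 2 := by rw [Complex.sub_re, cp_re]
  have h2 : ((⟨x, y⟩ : ℂ) - cp t₀).im = y - t₀ := by rw [Complex.sub_im, cp_im]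
  rw [sq, Complex.mul_re, h1, h2]
  ring

/-- the quotient `‖ζ/(1-w)‖` is invariant under the reflection -/
theorem refl_quot (h1 : StBasic) {c : ℂ} (hc : ‖c‖ = 1) {s : ℂ} (hs : 1 ≤ s.im) :
    ‖riemannZeta (rf s)‖ / ‖1 - ww c 1 (rf s)‖ = ‖riemannZeta s‖ / ‖1 - ww c 1 s‖ := by
  obtain ⟨-, hX, -, -, hz, -, -, hw⟩ := h1 s hs
  have hwX : ‖ww c 1 s‖ = ‖XX s‖⁻¹ := by
    unfold ww
    rw [norm_mul, hc, one_mul, pow_one, norm_inv]
  have hX0 : 0 < ‖XX s‖ := norm_pos_iff.2 hX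
  have hw0 : 0 < ‖ww c 1 s‖ := by
    rw [hwX]
    positivity
  have hwne : ww c 1 s ≠ 0 := norm_pos_iff.1 hw0
  have e1 : ‖1 - ww c 1 (rf s)‖ = ‖1 - ww c 1 s‖ / ‖ww c 1 s‖ := by
    rw [hw c 1 hc, ← RCLike.norm_conj (1 - ((starRingEnd ℂ) (ww c 1 s))⁻¹)]
    simp only [map_sub, map_one, map_inv₀, Complex.conj_conj]
    have : 1 - (ww c 1 s)⁻¹ = -(1 - ww c 1 s) / ww c 1 s := by
      field_simp
      ring
    rw [this, norm_div, norm_neg]
  rw [hz, RCLike.norm_conj, norm_mul, e1, hwX]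
  by_cases h0 : ‖1 - ww c 1 s‖ = 0
  · rw [h0]
    simp
  · field_simp

theorem rf_mk (x y : ℝ) : rf (⟨x, y⟩ : ℂ) = ⟨1 - x, y⟩ := by
  apply Complex.ext <;> simp [rf]

/-- bound for the integrand in terms of `‖ζ/(1-w)‖` on the right half -/
theorem Fu_bound (h1 : StBasic) {c : ℂ} (hc : ‖c‖ = 1) (t₀ : ℝ) {x y B d : ℝ} (hy : 1 ≤ y)
    (hB : ∀ σ : ℝ, (σ = x ∨ σ = 1 - x) → 1 / 2 ≤ σ →
      ‖riemannZeta (⟨σ, y⟩ : ℂ)‖ / ‖1 - ww c 1 (⟨σ, y⟩ : ℂ)‖ ≤ B)
    (hd : 1 ≤ ‖(⟨x, y⟩ : ℂ) - cp t₀‖) (hdx : (x - 1 / 2) ^ 2 ≤ 49 / 4)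
    (hdy : d ≤ (y - t₀) ^ 2) :
    ‖Fu c t₀ (⟨x, y⟩ : ℂ)‖ ≤ B * (Real.exp (49 / 4) * Real.exp (-d)) := by
  have hq : ‖riemannZeta (⟨x, y⟩ : ℂ)‖ / ‖1 - ww c 1 (⟨x, y⟩ : ℂ)‖ ≤ B := by
    rcases le_total (1 / 2) x with hx | hx
    · exact hB x (Or.inl rfl) hx
    · have h2 := hB (1 - x) (Or.inr rfl) (by linarith)
      have h3 := refl_quot h1 hc (s := (⟨1 - x, y⟩ : ℂ)) hy
      rw [rf_mk, sub_sub_cancel] at h3
      rw [h3]
      exact h2
  have hq0 : 0 ≤ ‖riemannZeta (⟨x, y⟩ : ℂ)‖ / ‖1 - ww c 1 (⟨x, y⟩ : ℂ)‖ := by positivity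
  have e1 : ‖Fu c t₀ (⟨x, y⟩ : ℂ)‖ =
      ‖riemannZeta (⟨x, y⟩ : ℂ)‖ / ‖1 - ww c 1 (⟨x, y⟩ : ℂ)‖ *
      (Real.exp ((x - 1 / 2) ^ 2 - (y - t₀) ^ 2) / ‖(⟨x, y⟩ : ℂ) - cp t₀‖) := by
    unfold Fu
    rw [norm_div, norm_mul, norm_mul, exp_norm]
    rw [div_mul_div_comm]
  rw [e1]
  have hE : Real.exp ((x - 1 / 2) ^ 2 - (y - t₀) ^ 2) / ‖(⟨x, y⟩ : ℂ) - cp t₀‖ ≤
      Real.exp (49 / 4) * Real.exp (-d) := by
    rw [← Real.exp_add]
    refine (div_le_self (Real.exp_pos _).le hd).trans ?_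
    exact Real.exp_le_exp.2 (by linarith)
  exact mul_le_mul hq hE (by positivity) (hq0.trans hq)

/-- the residue theorem -/
theorem residues (h1 : StBasic) (h2 : StLine) {c : ℂ} {t₀ a b : ℝ} (hc : ‖c‖ = 1) (ha : 100 ≤ a)
    (hat : a < t₀) (htb : t₀ < b) (hwa : ww c 1 (cp a) = -1) (hwb : ww c 1 (cp b) = -1)
    (hw0 : ww c 1 (cp t₀) ≠ 1) :
    RI (Fu c t₀) (-3) 4 a b = 2 * Real.pi * I * (riemannZeta (cp t₀) / (1 - ww c 1 (cp t₀)) +
      ∑ᶠ t ∈ PP c 1 ∩ Ioo a b, riemannZeta (cp t) * (Real.exp (-(t - t₀) ^ 2) : ℂ) /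
        ((lam t : ℂ) * ((t - t₀ : ℝ) * I))) := by
  classical
  have hab : a < b := hat.trans htb
  obtain ⟨l1, l2, l3, l4, l5, l6, l7, l8, l9, l10⟩ := h2
  have hfin : (PP c 1 ∩ Ioo a b).Finite :=
    (l10 c 1 hc le_rfl b).subset (fun t ht => ⟨ht.1, ht.2.2.le⟩)
  set S : Finset ℝ := hfin.toFinset with hS
  have hmemS : ∀ t, t ∈ S ↔ (100 < t ∧ ww c 1 (cp t) = 1) ∧ (a < t ∧ t < b) := by
    intro t
    rw [hS, Set.Finite.mem_toFinset]
    rfl
  set Z : Finset ℂ := S.image cp with hZ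
  have hUo : IsOpen {s : ℂ | 1 < s.im} := isOpen_lt continuous_const Complex.continuous_im
  have hwd : ∀ s : ℂ, 1 < s.im → DifferentiableAt ℂ (fun s => 1 - ww c 1 s) s := by
    intro s hs
    obtain ⟨b1, b2, b3, _⟩ := h1 s (le_of_lt hs)
    unfold ww
    exact (differentiableAt_const _).sub ((differentiableAt_const _).mul ((b1.inv b2).pow 1))
  have hfd : DifferentiableOn ℂ (fun s => (1 - ww c 1 s) * (s - cp t₀)) {s : ℂ | 1 < s.im} := by
    intro s hs
    apply DifferentiableAt.differentiableWithinAt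
    exact (hwd s hs).mul (differentiableAt_id.sub (differentiableAt_const _))
  have hHd : DifferentiableOn ℂ (fun s => riemannZeta s * cexp ((s - cp t₀) ^ 2))
      {s : ℂ | 1 < s.im} := by
    intro s hs
    obtain ⟨b1, b2, b3, _⟩ := h1 s (le_of_lt hs)
    apply DifferentiableAt.differentiableWithinAt
    apply DifferentiableAt.mul b3
    exact ((differentiableAt_id.sub (differentiableAt_const _)).pow 2).cexp
  have hR : Set.Icc (-3 : ℝ) 4 ×ℂ Set.Icc a b ⊆ {s : ℂ | 1 < s.im} := by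
    intro s hs
    rw [mem_reProdIm] at hs
    show 1 < s.im
    have := hs.2.1
    linarith
  have h0 : ∀ s ∈ Set.Icc (-3 : ℝ) 4 ×ℂ Set.Icc a b, 1 - ww c 1 s = 0 ↔ s ∈ Z := by
    intro s hs
    rw [mem_reProdIm] at hs
    obtain ⟨⟨hs1, hs2⟩, hs3, hs4⟩ := hs
    obtain ⟨b1, b2, b3, b4, b5, b6, b7, b8⟩ := h1 s (by linarith)
    constructor
    · intro hw
      have hw1 : ww c 1 s = 1 := by linear_combination -hw
      have hn : ‖XX s‖ = 1 := by
        have e1 : ‖ww c 1 s‖ = 1 := by rw [hw1, norm_one]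
        unfold ww at e1
        rw [norm_mul, hc, one_mul, pow_one, norm_inv] at e1
        rw [inv_eq_one] at e1
        exact e1
      rcases lt_trichotomy s.re (1 / 2) with h | h | h
      · exfalso
        have r1 : (rf s).re = 1 - s.re := by unfold rf; simp
        have r2 : (rf s).im = s.im := by unfold rf; simp
        have := l6 (rf s) (by rw [r1]; linarith) (by rw [r1]; linarith) (by rw [r2]; linarith)
        rw [b4, norm_inv, RCLike.norm_conj, hn] at this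
        norm_num at this
      · have hcp : cp s.im = s := by
          apply Complex.ext
          · rw [cp_re, h]
          · rw [cp_im]
        rw [hZ, Finset.mem_image]
        refine ⟨s.im, ?_, hcp⟩
        rw [hmemS]
        have n1 : s.im ≠ a := by
          intro e
          rw [← e, hcp, hw1] at hwa
          norm_num at hwa
        have n2 : s.im ≠ b := by
          intro e
          rw [← e, hcp, hw1] at hwb
          norm_num at hwb
        have n3 : a < s.im := lt_of_le_of_ne hs3 (Ne.symm n1)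
        have n4 : s.im < b := lt_of_le_of_ne hs4 n2
        refine ⟨⟨by linarith, by rw [hcp]; exact hw1⟩, n3, n4⟩
      · exfalso
        have := l6 s h hs2 (by linarith)
        rw [hn] at this
        exact lt_irrefl _ this
    · intro hz
      rw [hZ, Finset.mem_image] at hz
      obtain ⟨t, ht, rfl⟩ := hz
      rw [((hmemS t).1 ht).1.2, sub_self]
  have hs0Z : cp t₀ ∉ Z := by
    intro h
    rw [hZ, Finset.mem_image] at h
    obtain ⟨t, ht, he⟩ := h
    apply hw0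
    rw [← he]
    exact ((hmemS t).1 ht).1.2
  have hwh : ∀ t : ℝ, 50 ≤ t → HasDerivAt (fun s => 1 - ww c 1 s)
      (ww c 1 (cp t) * (lam t : ℂ)) (cp t) := by
    intro t ht
    obtain ⟨e1, _, _⟩ := l1 t ht
    have hd := l7 c 1 (cp t) (by rw [cp_re]; norm_num) (by rw [cp_im]; linarith)
    have hd2 := (hasDerivAt_const (cp t) (1 : ℂ)).sub hd
    refine HasDerivAt.congr_deriv hd2 ?_
    rw [e1]
    push_cast
    ring
  have hfh : ∀ t : ℝ, 50 ≤ t → deriv (fun s => (1 - ww c 1 s) * (s - cp t₀)) (cp t) =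
      ww c 1 (cp t) * (lam t : ℂ) * (cp t - cp t₀) + (1 - ww c 1 (cp t)) := by
    intro t ht
    have h := (hwh t ht).mul ((hasDerivAt_id (cp t)).sub_const (cp t₀))
    have h' := h.deriv
    refine Eq.trans h' ?_
    simp only [id_eq]
    ring
  have hd0 : deriv (fun s => (1 - ww c 1 s) * (s - cp t₀)) (cp t₀) = 1 - ww c 1 (cp t₀) := by
    rw [hfh t₀ (by linarith)]
    ring
  have hdS : ∀ t ∈ S, deriv (fun s => (1 - ww c 1 s) * (s - cp t₀)) (cp t) =
      (lam t : ℂ) * ((t - t₀ : ℝ) * I) := by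
    intro t ht
    obtain ⟨⟨t1, t2⟩, t3, t4⟩ := (hmemS t).1 ht
    rw [hfh t (by linarith), t2, cp_sub]
    ring
  have hl0 : ∀ t ∈ S, (lam t : ℂ) ≠ 0 := by
    intro t ht
    obtain ⟨⟨t1, t2⟩, t3, t4⟩ := (hmemS t).1 ht
    obtain ⟨_, _, e3⟩ := l1 t (by linarith)
    have : lam t ≠ 0 := by linarith
    exact_mod_cast this
  have htne : ∀ t ∈ S, ((t - t₀ : ℝ) : ℂ) ≠ 0 := by
    intro t ht
    have : t ≠ t₀ := by
      intro h
      apply hw0
      rw [← h]
      exact ((hmemS t).1 ht).1.2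
    exact_mod_cast sub_ne_zero.2 this
  have hres := SG.rect_res (fun s => (1 - ww c 1 s) * (s - cp t₀))
    (fun s => riemannZeta s * cexp ((s - cp t₀) ^ 2)) (-3) 4 a b
    (by norm_num) hab (insert (cp t₀) Z)
    (by
      intro z hz
      rw [Finset.mem_insert] at hz
      rcases hz with rfl | hz
      · rw [mem_reProdIm, cp_re, cp_im]
        exact ⟨⟨by norm_num, by norm_num⟩, hat, htb⟩
      · rw [hZ, Finset.mem_image] at hz
        obtain ⟨t, ht, rfl⟩ := hz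
        obtain ⟨_, t3, t4⟩ := (hmemS t).1 ht
        rw [mem_reProdIm, cp_re, cp_im]
        exact ⟨⟨by norm_num, by norm_num⟩, t3, t4⟩)
    (fun s hs => hfd.analyticAt (hUo.mem_nhds (hR hs)))
    (fun s hs => hHd.analyticAt (hUo.mem_nhds (hR hs)))
    (by
      intro s hs
      rw [mul_eq_zero, h0 s hs, Finset.mem_insert, sub_eq_zero]
      exact or_comm)
    (by
      intro z hz
      rw [Finset.mem_insert] at hz
      rcases hz with rfl | hz
      · rw [hd0]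
        intro h
        exact hw0 (sub_eq_zero.1 h).symm
      · rw [hZ, Finset.mem_image] at hz
        obtain ⟨t, ht, rfl⟩ := hz
        rw [hdS t ht]
        exact mul_ne_zero (hl0 t ht) (mul_ne_zero (htne t ht) I_ne_zero))
  have hlhs : RI (Fu c t₀) (-3) 4 a b =
      SG.rectI (fun s => (riemannZeta s * cexp ((s - cp t₀) ^ 2)) /
        ((1 - ww c 1 s) * (s - cp t₀))) (-3) 4 a b := rfl
  rw [hlhs, hres, Finset.sum_insert hs0Z, hZ, Finset.sum_image (fun x _ y _ h => cp_inj h),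
    finsum_mem_eq_finite_toFinset_sum _ hfin, ← hS, hd0]
  congr 2
  · rw [sub_self]
    simp
  · refine Finset.sum_congr rfl fun t ht => ?_
    rw [hdS t ht, cp_sub]
    congr 2
    rw [Complex.ofReal_exp]
    congr 1
    push_cast
    rw [mul_pow, Complex.I_sq]
    ring

/-- the vertical sides -/
theorem vert {F : ℝ → ℂ} {B t₀ a b : ℝ} (hab : a ≤ b) (hB : 0 ≤ B)
    (hF : ∀ y ∈ Ioc a b, ‖F y‖ ≤ B * Real.exp (-(y - t₀) ^ 2)) :
    ‖∫ y in a..b, F y‖ ≤ B * ∫ y : ℝ, Real.exp (-(1 : ℝ) * y ^ 2) := by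
  have hi0 : Integrable (fun y : ℝ => Real.exp (-(1 : ℝ) * y ^ 2)) := integrable_exp_neg_mul_sq one_pos
  have hi : Integrable (fun y : ℝ => B * Real.exp (-(y - t₀) ^ 2)) := by
    have h := (hi0.comp_sub_right t₀).const_mul B
    refine h.congr (Eventually.of_forall (fun y => ?_))
    simp only [neg_mul, one_mul]
  have h1 : ‖∫ y in a..b, F y‖ ≤ ∫ y in a..b, B * Real.exp (-(y - t₀) ^ 2) :=
    intervalIntegral.norm_integral_le_of_norm_le hab (Eventually.of_forall (fun y hy => hF y hy))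
      hi.intervalIntegrable
  refine h1.trans ?_
  rw [intervalIntegral.integral_of_le hab]
  refine (setIntegral_le_integral hi (Eventually.of_forall (fun y => by positivity))).trans ?_
  rw [integral_const_mul]
  refine mul_le_mul_of_nonneg_left (le_of_eq ?_) hB
  have h2 := integral_sub_right_eq_self (μ := volume) (fun y : ℝ => Real.exp (-(1 : ℝ) * y ^ 2)) t₀
  rw [← h2]
  refine integral_congr_ae (Eventually.of_forall (fun y => ?_))
  simp only [neg_mul, one_mul]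

theorem bnd {w : ℂ} (h : w.re ≤ 0) : 1 ≤ ‖1 - w‖ := by
  refine le_trans ?_ (Complex.re_le_norm (1 - w))
  rw [Complex.sub_re, Complex.one_re]
  linarith

theorem resA_of (h1 : StBasic) (h2 : StLine) (h3 : StGood) : Pool.Agent.W188.GP.StResA := by
  obtain ⟨T1, hT1, hgood⟩ := h3 1 le_rfl
  obtain ⟨K, hK, hXX⟩ := h2.2.2.2.2.2.2.2.2.1
  set Kg : ℝ := ∫ y : ℝ, Real.exp (-(1 : ℝ) * y ^ 2) with hKg
  have hKg0 : 0 ≤ Kg := integral_nonneg (fun y => (Real.exp_pos _).le)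
  set E : ℝ := Real.exp (49 / 4) with hE
  have hE0 : 0 < E := Real.exp_pos _
  refine ⟨2 * (7 * (100 * E)) + 2 * (4 * E * Kg), max (max (2 * T1) (4 * Real.exp K)) 200, ?_⟩
  intro c T t₀ hc hT hTt htT hw0
  have hTa : 2 * T1 ≤ T := ((le_max_left _ _).trans (le_max_left _ _)).trans hT
  have hTb : 4 * Real.exp K ≤ T := ((le_max_right _ _).trans (le_max_left _ _)).trans hT
  have hTc : 200 ≤ T := (le_max_right _ _).trans hT
  have hT0 : 0 < T := by linarith
  have hlog1 : 1 ≤ Real.log T := by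
    rw [Real.le_log_iff_exp_le hT0]
    have := Real.exp_one_lt_d9
    linarith
  have hlog2 : Real.log T + 1 ≤ T / 2 := by
    have e : Real.log T = Real.log (T / 4) + Real.log 4 := by
      rw [← Real.log_mul (by positivity) (by norm_num)]
      congr 1
      ring
    have e2 : Real.log (T / 4) ≤ T / 4 - 1 := Real.log_le_sub_one_of_pos (by positivity)
    have e3 : Real.log 4 ≤ 4 - 1 := Real.log_le_sub_one_of_pos (by norm_num)
    linarith
  obtain ⟨a, ha1, ha2, hga⟩ := hgood c hc (t₀ - Real.log T - 1) (by linarith)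
  obtain ⟨b, hb1, hb2, hgb⟩ := hgood c hc (t₀ + Real.log T) (by linarith)
  have ha2' : a ≤ t₀ - Real.log T := by linarith
  refine ⟨a, b, ha1, ha2', hb1, hb2, ?_⟩
  have ha100 : 100 ≤ a := by linarith
  have haT : T / 2 ≤ a := by linarith
  have hbT : b ≤ 9 * T := by linarith
  have hat : a < t₀ := by linarith
  have htb : t₀ < b := by linarith
  have hab : a < b := hat.trans htb
  have hres := residues h1 h2 hc ha100 hat htb hga.1 hgb.1 hw0
  set Q : ℂ := riemannZeta (cp t₀) / (1 - ww c 1 (cp t₀)) +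
      ∑ᶠ t ∈ PP c 1 ∩ Ioo a b, riemannZeta (cp t) * (Real.exp (-(t - t₀) ^ 2) : ℂ) /
        ((lam t : ℂ) * ((t - t₀ : ℝ) * I)) with hQ
  have hQn : ‖Q‖ ≤ ‖RI (Fu c t₀) (-3) 4 a b‖ := by
    rw [hres, norm_mul, norm_mul, norm_mul, Complex.norm_I, mul_one, Complex.norm_real,
      Complex.norm_ofNat, Real.norm_eq_abs, abs_of_pos Real.pi_pos]
    have hpi := Real.pi_gt_three
    nlinarith [norm_nonneg Q]
  refine hQn.trans ?_
  -- the horizontal sides
  have hhor : ∀ y : ℝ, Good c 1 y → T / 2 ≤ y → y ≤ 9 * T → Real.log T ≤ |y - t₀| →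
      ‖∫ x in (-3 : ℝ)..4, Fu c t₀ (⟨x, y⟩ : ℂ)‖ ≤ 7 * (100 * E) := by
    intro y hgy hy1 hy2 hyt
    have h5 : ∀ x ∈ Set.uIoc (-3 : ℝ) 4, ‖Fu c t₀ (⟨x, y⟩ : ℂ)‖ ≤ 100 * E := by
      intro x hx
      rw [Set.uIoc_of_le (by norm_num)] at hx
      have hB : ∀ σ : ℝ, (σ = x ∨ σ = 1 - x) → 1 / 2 ≤ σ →
          ‖riemannZeta (⟨σ, y⟩ : ℂ)‖ / ‖1 - ww c 1 (⟨σ, y⟩ : ℂ)‖ ≤ 100 * T := by
        intro σ hσ hσ2
        have hσ4 : σ ≤ 4 := by
          rcases hσ with h | h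
          · rw [h]; exact hx.2
          · rw [h]; linarith [hx.1]
        have g1 := bnd (hgy.2 σ hσ2 hσ4)
        refine (div_le_self (norm_nonneg _) g1).trans ?_
        refine (Pool.Agent.H388LH.zeta_growth (s := (⟨σ, y⟩ : ℂ)) ?_ ?_).trans ?_
        · show 1 / 4 ≤ σ
          linarith
        · show 1 ≤ y
          linarith
        · have e1 : ‖(⟨σ, y⟩ : ℂ)‖ ≤ |σ| + |y| := Complex.norm_le_abs_re_add_abs_im _
          rw [abs_of_nonneg (by linarith), abs_of_nonneg (by linarith)] at e1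
          linarith
      have hd : Real.log T ≤ ‖(⟨x, y⟩ : ℂ) - cp t₀‖ := by
        have e1 := Complex.abs_im_le_norm ((⟨x, y⟩ : ℂ) - cp t₀)
        rw [Complex.sub_im, cp_im] at e1
        exact hyt.trans e1
      have hsq : Real.log T ^ 2 ≤ (y - t₀) ^ 2 := by
        rw [← sq_abs (y - t₀)]
        exact pow_le_pow_left₀ (by linarith) hyt 2
      have h6 := Fu_bound h1 hc t₀ (x := x) (y := y) (B := 100 * T) (d := Real.log T ^ 2)
        (by linarith) hB (hlog1.trans hd) (by nlinarith [hx.1, hx.2]) hsq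
      refine h6.trans ?_
      have h7 : T * Real.exp (-Real.log T ^ 2) ≤ 1 := by
        have e1 : T = Real.exp (Real.log T) := (Real.exp_log hT0).symm
        calc T * Real.exp (-Real.log T ^ 2)
            = Real.exp (Real.log T) * Real.exp (-Real.log T ^ 2) := by rw [← e1]
          _ = Real.exp (Real.log T - Real.log T ^ 2) := by
              rw [← Real.exp_add]
              congr 1
          _ ≤ Real.exp 0 := Real.exp_le_exp.2 (by nlinarith)
          _ = 1 := Real.exp_zero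
      calc 100 * T * (Real.exp (49 / 4) * Real.exp (-Real.log T ^ 2))
          = 100 * E * (T * Real.exp (-Real.log T ^ 2)) := by rw [hE]; ring
        _ ≤ 100 * E * 1 := mul_le_mul_of_nonneg_left h7 (by positivity)
        _ = 100 * E := by ring
    have h8 := intervalIntegral.norm_integral_le_of_norm_le_const h5
    have h9 : |(4 : ℝ) - -3| = 7 := by norm_num
    rw [h9] at h8
    linarith
  have hA := hhor a hga haT (by linarith) (by
    rw [abs_sub_comm, abs_of_nonneg (by linarith)]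
    linarith)
  have hB := hhor b hgb (by linarith) hbT (by
    rw [abs_of_nonneg (by linarith)]
    linarith)
  -- the vertical sides
  have hver : ∀ x : ℝ, (x = 4 ∨ x = -3) →
      ‖∫ y in a..b, Fu c t₀ (⟨x, y⟩ : ℂ)‖ ≤ 4 * E * Kg := by
    intro x hx
    refine vert (t₀ := t₀) hab.le (by positivity) ?_
    intro y hy
    have hy1 : a < y := hy.1
    have hB : ∀ σ : ℝ, (σ = x ∨ σ = 1 - x) → 1 / 2 ≤ σ →
        ‖riemannZeta (⟨σ, y⟩ : ℂ)‖ / ‖1 - ww c 1 (⟨σ, y⟩ : ℂ)‖ ≤ 4 := by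
      intro σ hσ hσ2
      have hσ4 : σ = 4 := by
        rcases hσ with h | h <;> rcases hx with h' | h' <;> rw [h'] at h
        · exact h
        · rw [h] at hσ2
          norm_num at hσ2
        · rw [h] at hσ2
          norm_num at hσ2
        · rw [h]
          norm_num
      subst hσ4
      have hz : ‖riemannZeta (⟨4, y⟩ : ℂ)‖ ≤ 2 := norm_zeta_two (by
        show (2 : ℝ) ≤ 4
        norm_num)
      have hX : 2 ≤ ‖XX (⟨4, y⟩ : ℂ)‖ := by
        have h4 := (hXX (⟨4, y⟩ : ℂ) (by show (1 / 2 : ℝ) ≤ 4; norm_num)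
          (by show (4 : ℝ) ≤ 4; norm_num) (by show (1 : ℝ) ≤ y; linarith)).1
        refine le_trans ?_ h4
        show 2 ≤ Real.exp (-K) * y ^ ((4 : ℝ) - 1 / 2)
        have e1 : y ≤ y ^ ((4 : ℝ) - 1 / 2) := by
          calc y = y ^ (1 : ℝ) := (Real.rpow_one y).symm
            _ ≤ y ^ ((4 : ℝ) - 1 / 2) :=
              Real.rpow_le_rpow_of_exponent_le (by linarith) (by norm_num)
        have e2 : 2 * Real.exp K ≤ y := by linarith
        calc (2 : ℝ) = Real.exp (-K) * (2 * Real.exp K) := by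
              rw [Real.exp_neg]
              field_simp
          _ ≤ Real.exp (-K) * y ^ ((4 : ℝ) - 1 / 2) :=
              mul_le_mul_of_nonneg_left (e2.trans e1) (Real.exp_pos _).le
      have hw : ‖ww c 1 (⟨4, y⟩ : ℂ)‖ ≤ 1 / 2 := by
        unfold ww
        rw [norm_mul, hc, one_mul, pow_one, norm_inv]
        rw [inv_le_comm₀ (by linarith) (by norm_num)]
        linarith
      have h1w : 1 / 2 ≤ ‖1 - ww c 1 (⟨4, y⟩ : ℂ)‖ := by
        have e1 := norm_sub_norm_le (1 : ℂ) (ww c 1 (⟨4, y⟩ : ℂ))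
        rw [norm_one] at e1
        linarith
      rw [div_le_iff₀ (by linarith)]
      linarith
    have hx2 : (x - 1 / 2) ^ 2 = 49 / 4 := by
      rcases hx with h | h <;> rw [h] <;> norm_num
    have hd : 1 ≤ ‖(⟨x, y⟩ : ℂ) - cp t₀‖ := by
      have e1 := Complex.abs_re_le_norm ((⟨x, y⟩ : ℂ) - cp t₀)
      rw [Complex.sub_re, cp_re] at e1
      refine le_trans ?_ e1
      rcases hx with h | h
      · show (1 : ℝ) ≤ |x - 1 / 2|
        rw [h]; norm_num
      · show (1 : ℝ) ≤ |x - 1 / 2|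
        rw [h]; norm_num [abs_of_neg]
    have h6 := Fu_bound h1 hc t₀ (x := x) (y := y) (B := 4) (d := (y - t₀) ^ 2)
      (by linarith) hB hd hx2.le le_rfl
    refine h6.trans (le_of_eq ?_)
    rw [hE]
    ring
  have hC := hver 4 (Or.inl rfl)
  have hD := hver (-3) (Or.inr rfl)
  unfold RI
  have n1 := norm_sub_le ((∫ x in (-3 : ℝ)..4, Fu c t₀ (⟨x, a⟩ : ℂ)) -
    (∫ x in (-3 : ℝ)..4, Fu c t₀ (⟨x, b⟩ : ℂ)) + I * (∫ y in a..b, Fu c t₀ (⟨4, y⟩ : ℂ)))
    (I * (∫ y in a..b, Fu c t₀ (⟨-3, y⟩ : ℂ)))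
  have n2 := norm_add_le ((∫ x in (-3 : ℝ)..4, Fu c t₀ (⟨x, a⟩ : ℂ)) -
    (∫ x in (-3 : ℝ)..4, Fu c t₀ (⟨x, b⟩ : ℂ))) (I * (∫ y in a..b, Fu c t₀ (⟨4, y⟩ : ℂ)))
  have n3 := norm_sub_le (∫ x in (-3 : ℝ)..4, Fu c t₀ (⟨x, a⟩ : ℂ))
    (∫ x in (-3 : ℝ)..4, Fu c t₀ (⟨x, b⟩ : ℂ))
  rw [norm_mul, Complex.norm_I, one_mul] at n1 n2
  linarith

theorem gp_resA : Pool.Agent.W188.GP.StResA :=
  resA_of Pool.Agent.W22.QS.qs_basic Pool.Agent.W338.QS.qs_line
    (Pool.Agent.W563.QS.Good.qs_good Pool.Agent.W338.QS.qs_line)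

end Pool.Agent.W63.GP
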